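import Pool.Agent.Lib.MP_dedb2f_an.Cont

set_option autoImplicit false

namespace Pool.Agent.Lib.MP_dedb2f_an.Graphs

open Bundle Manifold Set Filter Topology Metric

variable {E : Type*} [NormedAddCommGroup E] [NormedSpace ℝ E]
  {M : Type*} [TopologicalSpace M] [ChartedSpace E M] {U : Type*}

/-- continuation of an orbit in the lift to uniformly close controls, close at all times -/
theorem cont_all [FiniteDimensional ℝ E] [T2Space M] [IsManifold 𝓘(ℝ, E) 1 M]
    [RiemannianBundle (fun x : M => TangentSpace 𝓘(ℝ, E) x)]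
    [MetricSpace U] [CompactSpace U]
    {f : U → Diffeomorph 𝓘(ℝ, E) 𝓘(ℝ, E) M M 1} (hf : Continuous (fun p : U × M => f p.1 p.2))
    (hfi : Continuous (fun p : U × M => (f p.1).symm p.2))
    (hD : Continuous (fun p : U × TangentBundle 𝓘(ℝ, E) M =>
      tangentMap 𝓘(ℝ, E) 𝓘(ℝ, E) (f p.1) p.2))
    {Q : Set M} (hQ : IsHyperbolic f Q) (hI : IsIsolatedInvariant f (lift f Q))
    {F : Finset M} {R : M → ℝ} {C0 : ℝ} (hC0 : 0 < C0)
    (hF : ∀ a ∈ F, closedBall (chartAt E a a) (R a) ⊆ (chartAt E a).target)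
    (hb : ∀ a ∈ F, ∀ y ∈ KK E a (R a),
        (∀ v, ‖TT E a y v‖ ≤ C0 * nrm y v) ∧ ∀ w, nrm y (SS E a y w) ≤ C0 * ‖w‖)
    (hcov : ∀ x ∈ Q, ∃ a ∈ F, x ∈ KK E a (R a)) {ε : ℝ} (hε : 0 < ε) :
    ∃ δ > 0, ∀ u x, (u, x) ∈ lift f Q → ∀ ι : ℤ → M, (∀ t, ι t ∈ F) →
      (∀ t, phi f t u x ∈ KK E (ι t) (R (ι t))) → ∀ v : ℤ → U, (∀ t, dist (u t) (v t) < δ) →
        ∃ y ∈ fiber f Q v, ∀ t, phi f t v y ∈ (chartAt E (ι t)).source ∧
          ‖chartAt E (ι t) (phi f t v y) - chartAt E (ι t) (phi f t u x)‖ ≤ ε := by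
  classical
  have := FiniteDimensional.complete ℝ E
  obtain ⟨Em, Ep, c, lam, H⟩ := hyp_of hQ
  have hc := H.c_ge
  have hl0 := H.lam_pos
  have hl1 := H.lam_lt
  obtain ⟨L, hL0, hL⟩ := DF_bound f hf hD hF
  obtain ⟨Cp, hCp, hP⟩ := proj_bound H (by positivity) (L_bound hC0 hL0 hb hcov hL)
  obtain ⟨B, κ, hB, hκ, hcore⟩ := core (E := E) (C := C0 * c * Cp * C0 / lam) (lam := lam)
    (ρ := 1) (by positivity) hl0.le hl1 le_rfl
  obtain ⟨δκ, hδκ, hκ'⟩ := unif_est f hf hD hF hκ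
  obtain ⟨N, hN, hNg⟩ := hI
  obtain ⟨δN, hδN, hN'⟩ := iso_est (lift_compact f hf hfi hQ.2.1) hN hF
  set r := min (min δκ δN / 2) ε with hr
  have hr0 : 0 < r := by positivity
  have hr1 : r < δκ := by
    have := min_le_left δκ δN
    have := min_le_left (min δκ δN / 2) ε
    linarith [lt_min hδκ hδN]
  have hr2 : r < δN := by
    have := min_le_right δκ δN
    have := min_le_left (min δκ δN / 2) ε
    linarith [lt_min hδκ hδN]
  have hη : 0 < r / B := by positivity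
  have hBη : B * (r / B) = r := by field_simp
  obtain ⟨δη, hδη, hη'⟩ := unif_est f hf hD hF hη
  refine ⟨min δη r, lt_min hδη hr0, fun u x hp ι hιF hι0 v huv => ?_⟩
  have huv1 : ∀ t, dist (u t) (v t) < δη := fun t => (huv t).trans_le (min_le_left _ _)
  have huv2 : ∀ t, dist (u t) (v t) < r := fun t => (huv t).trans_le (min_le_right _ _)
  set X : ℤ → M := fun t => phi f t u x with hX
  have hι : ∀ t, X t ∈ KK E (ι t) (R (ι t)) := hι0
  have hXs : ∀ t, X (t + 1) = f (u t) (X t) := by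
    intro t
    simp only [hX]
    rw [phi_succ]; rfl
  have hι1 : ∀ t, f (u t) (X t) ∈ KK E (ι (t + 1)) (R (ι (t + 1))) := fun t => hXs t ▸ hι (t + 1)
  obtain ⟨Γ, hΓ1, hΓ2⟩ := exists_green H hC0 hCp hb hP u x hp ι hιF hι
  set z : ℤ → E := fun t => chartAt E (ι t) (X t) with hz
  have hnear : ∀ t ξ, ‖ξ‖ ≤ r → _ := fun t ξ hξ =>
    hκ' _ (hιF t) _ (hιF (t + 1)) (u t) (X t) (hι t) (hι1 t) (v t) (z t + ξ)
      ((huv2 t).trans hr1) (by rw [add_sub_cancel_left]; exact hξ.trans_lt hr1)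
  obtain ⟨ξ, hξ1, hξ2⟩ := hcore
    (fun t => DF (f (u t)) (ι t) (ι (t + 1)) (z t)) Γ
    (fun t ξ => chartAt E (ι (t + 1)) (f (v t) ((chartAt E (ι t)).symm (z t + ξ))) - z (t + 1))
    r (r / B) (fun _ => 1) hΓ1 hΓ2 (fun t p q hp hq => by
      have := Convex.norm_image_sub_le_of_norm_hasFDerivWithin_le' (𝕜 := ℝ)
        (f := fun ξ => chartAt E (ι (t + 1)) (f (v t) ((chartAt E (ι t)).symm (z t + ξ)))
          - z (t + 1))
        (f' := fun ξ => DF (f (v t)) (ι t) (ι (t + 1)) (z t + ξ))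
        (φ := DF (f (u t)) (ι t) (ι (t + 1)) (z t)) (s := closedBall 0 r) (C := κ)
        (fun w hw => ?_) (fun w hw => (hnear t w (mem_closedBall_zero_iff.1 hw)).2.2.2)
        (convex_closedBall _ _) (mem_closedBall_zero_iff.2 hq) (mem_closedBall_zero_iff.2 hp)
      · exact this
      · have h1 := hnear t w (mem_closedBall_zero_iff.1 hw)
        have h2 := hasFDerivAt_loc ((f (v t)).mdifferentiable one_ne_zero) h1.1 h1.2.1
        have h3 := ((hasFDerivAt_comp_add_left (z t)).2 h2).sub_const (z (t + 1))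
        exact h3.hasFDerivWithinAt)
    ⟨fun _ => zero_le_one, fun _ => le_rfl, fun _ _ => by simp⟩ hη.le hBη.le (fun t => by
      simp only [add_zero, hz, (chartAt E (ι t)).left_inv (hι t).1]
      have h1 := (hη' _ (hιF t) _ (hιF (t + 1)) (u t) (X t) (hι t) (hι1 t) (v t) (z t)
        (huv1 t) (by simp only [hz, sub_self, norm_zero]; exact hδη)).2.2.1
      simp only [hz, (chartAt E (ι t)).left_inv (hι t).1] at h1
      rw [mul_one, hXs]
      exact h1)
  have hξr : ∀ t, ‖ξ t‖ ≤ r := by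
    intro t
    have := hξ1 t
    rwa [mul_one, hBη] at this
  set y : ℤ → M := fun t => (chartAt E (ι t)).symm (z t + ξ t) with hy
  have hyo : ∀ t, y (t + 1) = f (v t) (y t) := by
    intro t
    simp only [hy]
    rw [hξ2 t, add_sub_cancel]
    exact (chartAt E (ι (t + 1))).left_inv (hnear t _ (hξr t)).2.1
  have hmem : (v, y 0) ∈ lift f Q := by
    refine mem_lift_of_orbit hNg (fun t => ?_)
    have h1 := hN' _ (hιF t) _ (Phi_mem_lift f hp t) (hι t) (fun s => v (s + t)) (z t + ξ t)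
      (fun s => (huv2 _).trans hr2) (by
        show ‖z t + ξ t - z t‖ < δN
        rw [add_sub_cancel_left]; exact (hξr t).trans_lt hr2)
    have h2 : Phi f t (v, y 0) = (fun s => v (s + t), y t) := by
      unfold Phi
      rw [phi_of_orbit f v y hyo t]
    rw [h2]
    exact h1
  refine ⟨y 0, hmem, fun t => ?_⟩
  have ht0 : z t + ξ t ∈ (chartAt E (ι t)).target := (hnear t _ (hξr t)).1
  rw [phi_of_orbit f v y hyo t]
  refine ⟨(chartAt E (ι t)).map_target ht0, ?_⟩
  have e : chartAt E (ι t) (y t) = z t + ξ t := (chartAt E (ι t)).right_inv ht0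
  rw [e, add_sub_cancel_left]
  exact (hξr t).trans (min_le_right _ _)

end Pool.Agent.Lib.MP_dedb2f_an.Graphs
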