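import Mathlib

set_option autoImplicit false

namespace Pool.Agent.Lib.MP_dedb2f_an.Graphs

open Set Filter Topology

/-- a closed symmetric neighbourhood of the diagonal whose square lies in a given one -/
theorem exists_near {X : Type*} [TopologicalSpace X] [CompactSpace X] [T2Space X]
    {O : Set (X × X)} (hO : ∀ x, O ∈ 𝓝 (x, x)) :
    ∃ C : Set (X × X), IsClosed C ∧ (∀ x, C ∈ 𝓝 (x, x)) ∧ (∀ x y, (x, y) ∈ C → (y, x) ∈ C) ∧
      ∀ x y z, (x, y) ∈ C → (y, z) ∈ C → (x, z) ∈ O := by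
  let _ : UniformSpace X := uniformSpaceOfCompactR1
  have h1 : O ∈ uniformity X := by
    rw [← nhdsSet_diagonal_eq_uniformity, mem_nhdsSet_iff_forall]
    rintro ⟨x, y⟩ h
    have e : x = y := h
    subst e
    exact hO x
  obtain ⟨W, hW, hWO⟩ := comp_mem_uniformity_sets h1
  obtain ⟨T, hT, hTc, hTW⟩ := mem_uniformity_isClosed hW
  refine ⟨T ∩ Prod.swap ⁻¹' T, hTc.inter (hTc.preimage continuous_swap), fun x => ?_,
    fun x y h => ⟨h.2, h.1⟩, fun x y z h h' => hWO ⟨y, hTW h.1, hTW h'.1⟩⟩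
  have h2 : T ∩ Prod.swap ⁻¹' T ∈ uniformity X := inter_mem hT (tendsto_swap_uniformity hT)
  rw [← nhdsSet_diagonal_eq_uniformity, mem_nhdsSet_iff_forall] at h2
  exact h2 (x, x) rfl

/-- an open map with fibres of constant finite size is locally injective -/
theorem loc_inj {X Y : Type*} [TopologicalSpace X] [T2Space X] [TopologicalSpace Y] {p : X → Y}
    (hc : Continuous p) (ho : IsOpenMap p) {n : ℕ} (hn : ∀ y, (p ⁻¹' {y}).encard = n) (x : X) :
    {q : X × X | p q.1 = p q.2 → q.1 = q.2} ∈ 𝓝 (x, x) := by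
  have hfin : ∀ y, (p ⁻¹' {y}).Finite := fun y => finite_of_encard_eq_coe (hn y)
  obtain ⟨W, hW, hd⟩ := (hfin (p x)).t2_separation
  have hV : (⋂ a ∈ p ⁻¹' {p x}, p '' W a) ∈ 𝓝 (p x) :=
    (biInter_mem (hfin _)).2 (fun a ha => (ho _ (hW a).2).mem_nhds ⟨a, (hW a).1, ha⟩)
  have hS : W x ∩ p ⁻¹' (⋂ a ∈ p ⁻¹' {p x}, p '' W a) ∈ 𝓝 x :=
    inter_mem ((hW x).2.mem_nhds (hW x).1) (hc.continuousAt hV)
  refine mem_of_superset (prod_mem_nhds hS hS) ?_
  rintro ⟨a, b⟩ ⟨⟨ha, ha'⟩, hb, -⟩ hab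
  have hex : ∀ c, ∃ d, c ∈ p ⁻¹' {p x} → d ∈ W c ∧ p d = p a := by
    intro c
    by_cases hc' : c ∈ p ⁻¹' {p x}
    · obtain ⟨d, hd1, hd2⟩ := mem_iInter₂.1 ha' c hc'
      exact ⟨d, fun _ => ⟨hd1, hd2⟩⟩
    · exact ⟨c, fun h => absurd h hc'⟩
  choose g hg using hex
  have hinj : InjOn g (p ⁻¹' {p x}) := by
    intro c hc1 c' hc2 e
    by_contra hne
    exact Set.disjoint_left.1 (hd hc1 hc2 hne) (hg c hc1).1 (e ▸ (hg c' hc2).1)
  have himg : g '' (p ⁻¹' {p x}) = p ⁻¹' {p a} := by
    refine ((hfin _).image g).eq_of_subset_of_encard_le ?_ ?_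
    · rintro _ ⟨c, hc1, rfl⟩
      exact (hg c hc1).2
    · rw [hinj.encard_image, hn, hn]
  have key : ∀ d ∈ W x, p d = p a → d = g x := by
    intro d hd1 hd2
    have h1 : d ∈ g '' (p ⁻¹' {p x}) := by rw [himg]; exact hd2
    obtain ⟨c, hc1, rfl⟩ := h1
    by_contra hne
    have h2 : c ≠ x := fun e => hne (by rw [e])
    exact Set.disjoint_left.1 (hd hc1 (rfl : p x = p x) h2) (hg c hc1).1 hd1
  exact (key a ha rfl).trans (key b hb (Eq.symm hab)).symm

/-- fibres over sequences that agree on a long window are close -/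
theorem window {U X : Type*} [TopologicalSpace U] [CompactSpace U] [T2Space U]
    [TopologicalSpace X] [CompactSpace X] {p : X → ℤ → U} (hc : Continuous p) (ho : IsOpenMap p)
    {C : Set (X × X)} (hC : ∀ x, C ∈ 𝓝 (x, x)) :
    ∃ N : ℕ, ∀ x v, (∀ t : ℤ, t.natAbs ≤ N → p x t = v t) → ∃ y, p y = v ∧ (x, y) ∈ C := by
  obtain ⟨N, hN⟩ := exists_subset_nhds_of_compactSpace (X := X × (ℤ → U)) (ι := ℕ)
    (V := fun N => {q | ∀ t : ℤ, t.natAbs ≤ N → p q.1 t = q.2 t}) (U := Prod.map id p '' C)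
    (fun a b => ⟨max a b, fun q hq t ht => hq t (ht.trans (le_max_left _ _)),
      fun q hq t ht => hq t (ht.trans (le_max_right _ _))⟩)
    (fun N => by
      simp only [ofPred_forall]
      exact isClosed_iInter (fun t => isClosed_iInter (fun _ => isClosed_eq
        ((continuous_apply t).comp (hc.comp continuous_fst))
        ((continuous_apply t).comp continuous_snd))))
    (fun q hq => by
      have e : q = Prod.map id p (q.1, q.1) :=
        Prod.ext rfl (funext fun t => (mem_iInter.1 hq t.natAbs t le_rfl).symm)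
      rw [e]
      exact (IsOpenMap.id.prodMap ho).image_mem_nhds (hC q.1))
  refine ⟨N, fun x v h => ?_⟩
  obtain ⟨⟨a, b⟩, h1, h2⟩ := hN (show (x, v) ∈ _ from h)
  have e1 : a = x := congrArg Prod.fst h2
  have e2 : p b = v := congrArg Prod.snd h2
  exact ⟨b, e2, e1 ▸ h1⟩

/-- a shift-equivariant finite cover of the full shift is trivial -/
theorem sections {U X : Type*} [TopologicalSpace U] [CompactSpace U] [T2Space U]
    [PreconnectedSpace U] [Nonempty U] [TopologicalSpace X] [CompactSpace X] [T2Space X]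
    {p : X → ℤ → U} (hc : Continuous p) (ho : IsOpenMap p) {n : ℕ}
    (hn : ∀ u, (p ⁻¹' {u}).encard = n) (T : ℤ → X → X) (hT : ∀ k, Continuous (T k))
    (hTb : ∀ k, Function.Bijective (T k)) (hpT : ∀ k x, p (T k x) = fun s => p x (s + k)) :
    ∃ (s : Fin n → (ℤ → U) → X) (σ : Equiv.Perm (Fin n)), (∀ i, Continuous (s i)) ∧
      (∀ u, Function.Injective (fun i => s i u)) ∧ (∀ u, p ⁻¹' {u} = range (fun i => s i u)) ∧
      ∀ i u, T 1 (s i u) = s (σ i) (fun r => u (r + 1)) := by
  classical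
  obtain ⟨C, hCc, hCn, hCs, hCo⟩ := exists_near (loc_inj hc ho hn)
  have huniq : ∀ x y z, (x, y) ∈ C → (z, y) ∈ C → p x = p z → x = z :=
    fun x y z h1 h2 h3 => hCo x y z h1 (hCs _ _ h2) h3
  obtain ⟨N, hN⟩ := window hc ho hCn
  obtain ⟨c⟩ := (inferInstance : Nonempty U)
  set k : ℤ := 2 * N + 1 with hk
  set cut : (ℤ → U) → ℤ → U := fun u t => if t.natAbs ≤ N then u t else c with hcut
  have hcutc : Continuous cut := continuous_pi (fun t => by
    by_cases h : t.natAbs ≤ N
    · simp only [hcut, if_pos h]; exact continuous_apply t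
    · simp only [hcut, if_neg h]; exact continuous_const)
  have hcut1 : ∀ u (t : ℤ), t.natAbs ≤ N → cut u t = u t := fun u t h => if_pos h
  have hcut2 : ∀ u (t : ℤ), t.natAbs ≤ N → cut u (t + k) = c := fun u t h => if_neg (by omega)
  have hpk : ∀ y u, p (T k y) = (fun s => u (s + k)) → p y = u := by
    intro y u h
    funext t
    have := congrFun ((hpT k y).symm.trans h) (t - k)
    simpa using this
  -- the base fibre
  have hZ : (p ⁻¹' {fun _ => c}).Finite := finite_of_encard_eq_coe (hn _)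
  have hZn : hZ.toFinset.card = n := by
    have := hZ.encard_eq_coe_toFinset_card
    rw [hn] at this
    exact_mod_cast this.symm
  set e := (Finset.equivFinOfCardEq hZn).symm with he
  have hpe : ∀ i, p (e i) = fun _ => c := fun i => hZ.mem_toFinset.1 (e i).2
  set Rel : X → X → Prop := fun x z => ∃ y, p y = cut (p x) ∧ (x, y) ∈ C ∧ (T k y, z) ∈ C
    with hRel
  have hex : ∀ i u, ∃ x, p x = u ∧ Rel x (e i) := by
    intro i u
    obtain ⟨y', hy1, hy2⟩ := hN (e i) (fun s => cut u (s + k))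
      (fun t ht => by rw [hpe, hcut2 u t ht])
    obtain ⟨y, rfl⟩ := (hTb k).2 y'
    have hy3 := hpk y _ hy1
    obtain ⟨x, hx1, hx2⟩ := hN y u (fun t ht => by rw [hy3, hcut1 u t ht])
    exact ⟨x, hx1, y, by rw [hy3, hx1], hCs _ _ hx2, hCs _ _ hy2⟩
  choose s hs1 hs2 using hex
  have hun : ∀ x x' z, p x = p x' → Rel x z → Rel x' z → x = x' := by
    rintro x x' z h ⟨y, a1, a2, a3⟩ ⟨y', b1, b2, b3⟩
    have e1 : y = y' := (hTb k).1 (huniq _ _ _ a3 b3 (by rw [hpT, hpT, a1, b1, h]))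
    subst e1
    exact huniq _ _ _ a2 b2 h
  have hinj : ∀ u, Function.Injective (fun i => s i u) := by
    intro u i j hij
    obtain ⟨y, a1, a2, a3⟩ := hs2 i u
    obtain ⟨y', b1, b2, b3⟩ := hs2 j u
    have hij' : s i u = s j u := hij
    rw [← hij'] at b1 b2
    have e1 : y = y' := huniq _ _ _ (hCs _ _ a2) (hCs _ _ b2) (a1.trans b1.symm)
    subst e1
    have e2 : (e i : X) = e j := huniq _ _ _ (hCs _ _ a3) (hCs _ _ b3) (by rw [hpe, hpe])
    exact e.injective (Subtype.ext e2)
  have hrange : ∀ u, p ⁻¹' {u} = range (fun i => s i u) := by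
    intro u
    refine ((finite_range _).eq_of_subset_of_encard_le ?_ ?_).symm
    · rintro _ ⟨i, rfl⟩
      exact hs1 i u
    · rw [← image_univ, (hinj u).injOn.encard_image, hn]
      simp
  have hcont : ∀ i, Continuous (s i) := by
    intro i
    have h1 : IsClosed {x | Rel x (e i)} := by
      have h2 : IsClosed {q : X × X | p q.2 = cut (p q.1) ∧ q ∈ C ∧ (T k q.2, (e i : X)) ∈ C} :=
        (isClosed_eq (hc.comp continuous_snd) (hcutc.comp (hc.comp continuous_fst))).inter
          (hCc.inter (hCc.preimage (((hT k).comp continuous_snd).prodMk continuous_const)))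
      have h3 := isClosedMap_fst_of_compactSpace _ h2
      have h4 : {x | Rel x (e i)} = Prod.fst ''
          {q : X × X | p q.2 = cut (p q.1) ∧ q ∈ C ∧ (T k q.2, (e i : X)) ∈ C} := by
        ext x
        constructor
        · rintro ⟨y, hy⟩
          exact ⟨(x, y), hy, rfl⟩
        · rintro ⟨⟨a, y⟩, hy, rfl⟩
          exact ⟨y, hy⟩
      rwa [h4]
    rw [continuous_iff_isClosed]
    intro A hA
    have h5 : s i ⁻¹' A = p '' (A ∩ {x | Rel x (e i)}) := by
      ext u
      constructor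
      · intro hu
        exact ⟨s i u, ⟨hu, hs2 i u⟩, hs1 i u⟩
      · rintro ⟨x, ⟨hx1, hx2⟩, rfl⟩
        have := hun _ _ _ (hs1 i (p x)) (hs2 i _) hx2
        rwa [mem_preimage, this]
    rw [h5]
    exact ((hA.inter h1).isCompact.image hc).isClosed
  have hj : ∀ i u, ∃ j, s j (fun r => u (r + 1)) = T 1 (s i u) := by
    intro i u
    have h1 : T 1 (s i u) ∈ p ⁻¹' {fun r => u (r + 1)} := by
      rw [mem_preimage, hpT, hs1]; rfl
    rwa [hrange] at h1
  choose j hj using hj
  have hsh : Continuous (fun (u : ℤ → U) (r : ℤ) => u (r + 1)) :=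
    continuous_pi (fun r => continuous_apply _)
  have hjc : ∀ i, IsLocallyConstant (j i) := by
    intro i
    rw [IsLocallyConstant.iff_continuous, continuous_iff_isClosed]
    intro A _
    have h1 : j i ⁻¹' A = ⋃ a ∈ A, {u | s a (fun r => u (r + 1)) = T 1 (s i u)} := by
      ext u
      simp only [mem_preimage, mem_iUnion, mem_ofPred_eq]
      constructor
      · intro h
        exact ⟨_, h, hj i u⟩
      · rintro ⟨a, ha, h⟩
        have : a = j i u := hinj _ (h.trans (hj i u).symm)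
        rwa [← this]
    rw [h1]
    exact (toFinite A).isClosed_biUnion
      (fun a _ => isClosed_eq ((hcont a).comp hsh) ((hT 1).comp (hcont i)))
  have hσ : Function.Injective (fun i => j i (fun _ => c)) := by
    intro i i' h
    have h' : j i (fun _ => c) = j i' (fun _ => c) := h
    have h1 := hj i (fun _ => c)
    rw [h', hj] at h1
    exact (hinj _ ((hTb 1).1 h1)).symm
  refine ⟨s, Equiv.ofBijective _ hσ.bijective_of_finite, hcont, hinj, hrange, fun i u => ?_⟩
  rw [Equiv.ofBijective_apply, (hjc i).apply_eq_of_preconnectedSpace (fun _ => c) u, hj]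

end Pool.Agent.Lib.MP_dedb2f_an.Graphs
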