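import Pool.Agent.Lib.MP_dedb2f_an.Cont

set_option autoImplicit false

namespace Pool.Agent.Lib.MP_dedb2f_an.Graphs

open Bundle Manifold Set Filter Topology Metric

theorem eq_zero_of_geom {a K lam : ℝ} (ha : 0 ≤ a) (h0 : 0 ≤ lam) (h1 : lam < 1)
    (h : ∀ n : ℕ, a ≤ K * lam ^ n) : a = 0 := by
  have h2 := (tendsto_pow_atTop_nhds_zero_of_lt_one h0 h1).const_mul K
  rw [mul_zero] at h2
  exact le_antisymm (ge_of_tendsto' h2 h) ha

variable {E : Type*} [NormedAddCommGroup E] [NormedSpace ℝ E]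

/-- uniqueness of bounded solutions of a small perturbation of a hyperbolic linear equation -/
theorem core_unique [CompleteSpace E] {C lam : ℝ} (hC : 0 < C) (hlam : 0 ≤ lam) (hl1 : lam < 1) :
    ∃ κ > 0, ∀ (A : ℤ → E →L[ℝ] E) (Γ : ℤ → ℤ → E →ₗ[ℝ] E) (ξ : ℤ → E) (r : ℝ),
      (∀ t s w, ‖Γ t s w‖ ≤ C * lam ^ (t - s).natAbs * ‖w‖) →
      (∀ t s w, Γ (t + 1) s w = A t (Γ t s w) + if t = s then w else 0) →
      (∀ (ζ : ℤ → E) (K : ℝ), (∀ t, ‖ζ t‖ ≤ K) → (∀ t, ζ (t + 1) = A t (ζ t)) → ∀ t, ζ t = 0) →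
      (∀ t, ‖ξ t‖ ≤ r) → (∀ t, ‖ξ (t + 1) - A t (ξ t)‖ ≤ κ * ‖ξ t‖) → ∀ t, ξ t = 0 := by
  have hμ0 : 0 ≤ lam / 1 := by rwa [div_one]
  have hμ1 : lam / 1 < 1 := by rwa [div_one]
  set Z := ∑' k : ℤ, (lam / 1) ^ k.natAbs with hZ
  have hZ1 : 1 ≤ Z := by
    have := (summable_geom_int hμ0 hμ1).le_tsum 0 (fun k _ => by positivity)
    rwa [Int.natAbs_zero, pow_zero] at this
  have hCZ : 0 < C * Z := by positivity
  refine ⟨1 / (2 * (C * Z)), by positivity, fun A Γ ξ r hΓ hrec hom hr hξ => ?_⟩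
  set h : ℤ → E := fun s => ξ (s + 1) - A s (ξ s) with hh
  have hG : ∀ K, (∀ t, ‖ξ t‖ ≤ K) → ∀ t, Summable (fun s => Γ t s (h s)) ∧
      ‖∑' s, Γ t s (h s)‖ ≤ K * (1 / 2) := by
    intro K hK t
    have hK0 : 0 ≤ K := (norm_nonneg _).trans (hK 0)
    obtain ⟨h1, h2⟩ := green_bound hC.le hlam hl1 Γ hΓ (ω := fun _ => 1) (fun s t => by simp)
      (K := 1 / (2 * (C * Z)) * K) (by positivity) h (fun s => by
        rw [mul_one]
        exact (hξ s).trans (mul_le_mul_of_nonneg_left (hK s) (by positivity))) t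
    refine ⟨h1, h2.trans (le_of_eq ?_)⟩
    rw [← hZ]
    field_simp
  have hstep : ∀ t, ∑' s, Γ (t + 1) s (h s) = A t (∑' s, Γ t s (h s)) + h t := by
    intro t
    rw [(A t).map_tsum (hG r hr t).1]
    simp only [hrec]
    rw [Summable.tsum_add ((hG r hr t).1.mapL (A t)) (summable_of_ne_finset_zero (s := {t})
      (fun s hs => if_neg (fun h => hs (by simp [h]))))]
    congr 1
    rw [tsum_eq_single t (fun s hs => if_neg (fun h => hs h.symm))]
    simp
  have heq := hom (fun t => ξ t - ∑' s, Γ t s (h s)) (r + r * (1 / 2))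
    (fun t => (norm_sub_le _ _).trans (add_le_add (hr t) (hG r hr t).2))
    (fun t => by
      rw [hstep, map_sub]
      simp only [hh]
      abel)
  have hind : ∀ n : ℕ, ∀ t, ‖ξ t‖ ≤ r * (1 / 2) ^ n := by
    intro n
    induction n with
    | zero => simpa using hr
    | succ n ih =>
      intro t
      rw [sub_eq_zero.1 (heq t), pow_succ, ← mul_assoc]
      exact (hG _ ih t).2
  exact fun t => norm_eq_zero.1
    (eq_zero_of_geom (norm_nonneg _) (by norm_num) (by norm_num) (fun n => hind n t))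

variable {M : Type*} [TopologicalSpace M] [ChartedSpace E M] {U : Type*}
  [RiemannianBundle (fun x : M => TangentSpace 𝓘(ℝ, E) x)]

theorem nrm_eq_zero {y : M} {v : E} (h : nrm y v = 0) : v = 0 :=
  norm_eq_zero (E := TangentSpace 𝓘(ℝ, E) y).1 h

/-- a bounded orbit of the derivative cocycle vanishes -/
theorem bounded_zero {f : U → Diffeomorph 𝓘(ℝ, E) 𝓘(ℝ, E) M M 1} {Q : Set M}
    {Em Ep : (ℤ → U) × M → Submodule ℝ E} {c lam : ℝ} (H : Hyp f Q Em Ep c lam) {Cp : ℝ}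
    (hCp : 0 < Cp)
    (hP : ∀ p ∈ lift f Q, ∀ v a : E, a ∈ Em p → v - a ∈ Ep p →
      nrm p.2 a ≤ Cp * nrm p.2 v ∧ nrm p.2 (v - a) ≤ Cp * nrm p.2 v)
    {p : (ℤ → U) × M} (hp : p ∈ lift f Q) (w : ℤ → E) (K : ℝ)
    (hK : ∀ t, nrm (Phi f t p).2 (w t) ≤ K)
    (hw : ∀ t, w (t + 1) = D (E := E) (f (p.1 t)) (Phi f t p).2 (w t)) (s : ℤ) : w s = 0 := by
  have hc := H.c_ge
  have hl0 := H.lam_pos
  have hsnd : ∀ (s t : ℤ), phi f t (Phi f s p).1 (Phi f s p).2 = (Phi f (t + s) p).2 :=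
    fun s t => congrArg Prod.snd (Phi_add f s t p)
  have hfw : ∀ (s : ℤ) (n : ℕ),
      D (E := E) (phi f n (Phi f s p).1) (Phi f s p).2 (w s) = w (n + s) := by
    intro s n
    induction n with
    | zero =>
      simp only [Nat.cast_zero, phi_zero, D_id, zero_add]
      rfl
    | succ n ih =>
      push_cast
      rw [D_phi_succ, ih, hsnd, show (n : ℤ) + 1 + s = n + s + 1 by ring, hw]
      rfl
  have hEp : ∀ s, w s ∈ Ep (Phi f s p) := by
    intro s
    obtain ⟨P, hP1⟩ := exists_proj (H.compl _ (Phi_mem_lift f hp s))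
    have h0 : P (w s) = 0 := by
      refine nrm_eq_zero (y := (Phi f s p).2) (eq_zero_of_geom (K := Cp * (c * (Cp * K)))
        (nrm_nonneg _ _) hl0.le H.lam_lt (fun n => ?_))
      have hq := Phi_mem_lift f hp (s - n)
      obtain ⟨P', hP2⟩ := exists_proj (H.compl _ hq)
      obtain ⟨a1, a2⟩ := hP2 (w (s - n))
      have b1 := H.st _ hq n _ a1
      have b2 := H.inv _ hq n _ a2
      have b3 := (hP _ hq _ _ a1 a2).1.trans (mul_le_mul_of_nonneg_left (hK _) hCp.le)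
      rw [Phi_add, map_sub, hfw, add_sub_cancel] at b2
      rw [hsnd, add_sub_cancel] at b1
      have b4 := (hP _ (Phi_mem_lift f hp s)
        (D (E := E) (phi f n (Phi f (s - n) p).1) (Phi f (s - n) p).2 (P' (w (s - n)))) _
        (hP1 (w s)).1 (by
          have := Submodule.sub_mem _ (hP1 (w s)).2 b2
          rwa [sub_sub_sub_cancel_left] at this)).1
      calc _ ≤ _ := b4
        _ ≤ Cp * (c * lam ^ n * (Cp * K)) := by
          refine mul_le_mul_of_nonneg_left (b1.trans ?_) hCp.le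
          exact mul_le_mul_of_nonneg_left b3 (by positivity)
        _ = _ := by ring
    have := (hP1 (w s)).2
    rwa [h0, sub_zero] at this
  refine nrm_eq_zero (y := (Phi f s p).2) (eq_zero_of_geom (K := c * K)
    (nrm_nonneg _ _) hl0.le H.lam_lt (fun n => ?_))
  have h1 := H.un _ (Phi_mem_lift f hp (n + s)) n _ (hEp (n + s))
  have e2 : D (E := E) (phi f (-(n : ℤ)) (Phi f n (Phi f s p)).1) (Phi f n (Phi f s p)).2
      (D (E := E) (phi f n (Phi f s p).1) (Phi f s p).2 (w s)) = w s :=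
    D_phi_back f (Phi f s p).1 n (Phi f s p).2 (w s)
  rw [hfw, Phi_add] at e2
  rw [e2, hsnd, neg_add_cancel_left] at h1
  calc _ ≤ _ := h1
    _ ≤ c * lam ^ n * K := mul_le_mul_of_nonneg_left (hK _) (by positivity)
    _ = _ := by ring

/-- expansivity along orbits of the lift -/
theorem expansive [FiniteDimensional ℝ E] [T2Space M] [IsManifold 𝓘(ℝ, E) 1 M]
    [MetricSpace U] [CompactSpace U]
    {f : U → Diffeomorph 𝓘(ℝ, E) 𝓘(ℝ, E) M M 1} (hf : Continuous (fun p : U × M => f p.1 p.2))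
    (hD : Continuous (fun p : U × TangentBundle 𝓘(ℝ, E) M =>
      tangentMap 𝓘(ℝ, E) 𝓘(ℝ, E) (f p.1) p.2))
    {Q : Set M} (hQ : IsHyperbolic f Q)
    {F : Finset M} {R : M → ℝ} {C0 : ℝ} (hC0 : 0 < C0)
    (hF : ∀ a ∈ F, closedBall (chartAt E a a) (R a) ⊆ (chartAt E a).target)
    (hb : ∀ a ∈ F, ∀ y ∈ KK E a (R a),
        (∀ v, ‖TT E a y v‖ ≤ C0 * nrm y v) ∧ ∀ w, nrm y (SS E a y w) ≤ C0 * ‖w‖)
    (hcov : ∀ x ∈ Q, ∃ a ∈ F, x ∈ KK E a (R a)) :
    ∃ r > 0, ∀ u x, (u, x) ∈ lift f Q → ∀ ι : ℤ → M, (∀ t, ι t ∈ F) →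
      (∀ t, phi f t u x ∈ KK E (ι t) (R (ι t))) → ∀ y,
        (∀ t, phi f t u y ∈ (chartAt E (ι t)).source ∧
          ‖chartAt E (ι t) (phi f t u y) - chartAt E (ι t) (phi f t u x)‖ ≤ r) → y = x := by
  have := FiniteDimensional.complete ℝ E
  obtain ⟨Em, Ep, c, lam, H⟩ := hyp_of hQ
  have hc := H.c_ge
  have hl0 := H.lam_pos
  have hl1 := H.lam_lt
  obtain ⟨L, hL0, hL⟩ := DF_bound f hf hD hF
  obtain ⟨Cp, hCp, hP⟩ := proj_bound H (by positivity) (L_bound hC0 hL0 hb hcov hL)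
  obtain ⟨κ, hκ, hcore⟩ := core_unique (E := E) (C := C0 * c * Cp * C0 / lam) (lam := lam)
    (by positivity) hl0.le hl1
  obtain ⟨δ, hδ, hκ'⟩ := unif_est f hf hD hF hκ
  refine ⟨δ / 2, by positivity, fun u x hp ι hιF hι0 y hy => ?_⟩
  set X : ℤ → M := fun t => phi f t u x with hX
  have hι : ∀ t, X t ∈ KK E (ι t) (R (ι t)) := hι0
  have hs : ∀ (a : M) t, phi f (t + 1) u a = f (u t) (phi f t u a) := by
    intro a t
    rw [phi_succ]; rfl
  have hXs : ∀ t, X (t + 1) = f (u t) (X t) := hs x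
  have hι1 : ∀ t, f (u t) (X t) ∈ KK E (ι (t + 1)) (R (ι (t + 1))) := fun t => hXs t ▸ hι (t + 1)
  obtain ⟨Γ, hΓ1, hΓ2⟩ := exists_green H hC0 hCp hb hP u x hp ι hιF hι
  have hnear : ∀ t, ∀ w ∈ closedBall (chartAt E (ι t) (X t)) (δ / 2), _ := fun t w hw =>
    hκ' _ (hιF t) _ (hιF (t + 1)) (u t) (X t) (hι t) (hι1 t) (u t) w
      (by rwa [dist_self]) ((mem_closedBall_iff_norm.1 hw).trans_lt (by linarith))
  have h0 := hcore (fun t => DF (f (u t)) (ι t) (ι (t + 1)) (chartAt E (ι t) (X t))) Γ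
    (fun t => chartAt E (ι t) (phi f t u y) - chartAt E (ι t) (X t)) (δ / 2) hΓ1 hΓ2
    (fun ζ K hK hζ t => by
      have h1 := bounded_zero H hCp hP hp (fun t => SS E (ι t) (X t) (ζ t)) (C0 * K)
        (fun t => ((hb _ (hιF t) _ (hι t)).2 _).trans (mul_le_mul_of_nonneg_left (hK t) hC0.le))
        (fun t => by
          rw [hζ t]
          unfold DF
          simp only [ContinuousLinearMap.comp_apply, (chartAt E (ι t)).left_inv (hι t).1]
          rw [← hXs, SS_TT (hι (t + 1)).1]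
          rfl) t
      rw [← TT_SS (hι t).1 (ζ t), h1, map_zero])
    (fun t => (hy t).2) (fun t => by
      have := Convex.norm_image_sub_le_of_norm_hasFDerivWithin_le' (𝕜 := ℝ)
        (f := fun w => chartAt E (ι (t + 1)) (f (u t) ((chartAt E (ι t)).symm w)))
        (f' := fun w => DF (f (u t)) (ι t) (ι (t + 1)) w)
        (φ := DF (f (u t)) (ι t) (ι (t + 1)) (chartAt E (ι t) (X t)))
        (s := closedBall (chartAt E (ι t) (X t)) (δ / 2)) (C := κ)
        (fun w hw => (hasFDerivAt_loc ((f (u t)).mdifferentiable one_ne_zero) (hnear t w hw).1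
          (hnear t w hw).2.1).hasFDerivWithinAt) (fun w hw => (hnear t w hw).2.2.2)
        (convex_closedBall _ _) (mem_closedBall_self (by positivity))
        (mem_closedBall_iff_norm.2 (hy t).2)
      rw [(chartAt E (ι t)).left_inv (hι t).1, (chartAt E (ι t)).left_inv (hy t).1, ← hs,
        ← hXs] at this
      exact this) 0
  exact (chartAt E (ι 0)).injOn (hy 0).1 (hι 0).1 (sub_eq_zero.1 h0)

end Pool.Agent.Lib.MP_dedb2f_an.Graphs
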