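import Pool.Agent.Lib.MP_dedb2f_an.Main
import Pool.Agent.Lib.MP_dedb2f_an.Graphs.AllTime
import Pool.Agent.Lib.MP_dedb2f_an.Graphs.Expans
import Pool.Agent.Lib.MP_dedb2f_an.Graphs.Cover

set_option autoImplicit false

namespace Pool.Agent.Lib.MP_dedb2f_an.Graphs

open Bundle Manifold Set Filter Topology Metric

variable {E : Type*} [NormedAddCommGroup E] [NormedSpace ℝ E]
  {M : Type*} [TopologicalSpace M] [ChartedSpace E M] {U : Type*}

omit [NormedSpace ℝ E] in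
theorem margin {Q : Set M} (hQ : IsCompact Q) {F : Finset M} {R : M → ℝ}
    (hcov : ∀ x ∈ Q, ∃ a ∈ F, x ∈ (chartAt E a).source ∧
      chartAt E a x ∈ ball (chartAt E a a) (R a)) :
    ∃ m > 0, ∀ x ∈ Q, ∃ a ∈ F, x ∈ (chartAt E a).source ∧
      dist (chartAt E a x) (chartAt E a a) + m ≤ R a := by
  refine hQ.induction_on (p := fun S => ∃ m > 0, ∀ x ∈ S, ∃ a ∈ F, x ∈ (chartAt E a).source ∧
      dist (chartAt E a x) (chartAt E a a) + m ≤ R a) ⟨1, one_pos, by simp⟩ ?_ ?_ ?_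
  · rintro s t hst ⟨m, hm, h⟩
    exact ⟨m, hm, fun x hx => h x (hst hx)⟩
  · rintro s t ⟨m, hm, h⟩ ⟨m', hm', h'⟩
    refine ⟨min m m', lt_min hm hm', fun x hx => ?_⟩
    rcases hx with hx | hx
    · obtain ⟨a, ha, h1, h2⟩ := h x hx
      exact ⟨a, ha, h1, by linarith [min_le_left m m']⟩
    · obtain ⟨a, ha, h1, h2⟩ := h' x hx
      exact ⟨a, ha, h1, by linarith [min_le_right m m']⟩
  · intro x hx
    obtain ⟨a, ha, h1, h2⟩ := hcov x hx
    rw [mem_ball] at h2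
    set m := (R a - dist (chartAt E a x) (chartAt E a a)) / 2 with hm
    refine ⟨(chartAt E a).source ∩ chartAt E a ⁻¹' ball (chartAt E a a) (R a - m),
      mem_nhdsWithin_of_mem_nhds (((chartAt E a).isOpen_inter_preimage isOpen_ball).mem_nhds
        ⟨h1, ?_⟩), m, by linarith, fun y hy => ⟨a, ha, hy.1, ?_⟩⟩
    · rw [mem_preimage, mem_ball]; linarith
    · have := mem_ball.1 hy.2
      linarith

theorem trans_est [FiniteDimensional ℝ E] [T2Space M] [IsManifold 𝓘(ℝ, E) 1 M]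
    {F : Finset M} {R : M → ℝ}
    (hF : ∀ a ∈ F, closedBall (chartAt E a a) (R a) ⊆ (chartAt E a).target)
    {ε : ℝ} (hε : 0 < ε) :
    ∃ δ > 0, ∀ a ∈ F, ∀ b ∈ F, ∀ y, y ∈ KK E a (R a) → y ∈ KK E b (R b) →
      ∀ x ∈ (chartAt E a).source, ‖chartAt E a x - chartAt E a y‖ < δ →
        x ∈ (chartAt E b).source ∧ ‖chartAt E b x - chartAt E b y‖ ≤ ε := by
  obtain ⟨δ, hδ, h⟩ := unif_est (fun _ : Unit => Diffeomorph.refl 𝓘(ℝ, E) M 1) continuous_snd
    (by
      simp only [Diffeomorph.coe_refl, tangentMap_id]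
      exact continuous_snd) hF hε
  refine ⟨δ, hδ, fun a ha b hb y hy hy' x hx hxy => ?_⟩
  obtain ⟨-, h2, h3, -⟩ := h a ha b hb () y hy hy' () (chartAt E a x) (by rwa [dist_self]) hxy
  rw [(chartAt E a).left_inv hx] at h2 h3
  exact ⟨h2, h3⟩

variable [FiniteDimensional ℝ E] [T2Space M] [IsManifold 𝓘(ℝ, E) 1 M]
  [RiemannianBundle (fun x : M => TangentSpace 𝓘(ℝ, E) x)]
  [IsContinuousRiemannianBundle E (fun x : M => TangentSpace 𝓘(ℝ, E) x)]
  [MetricSpace U] [CompactSpace U]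
  {f : U → Diffeomorph 𝓘(ℝ, E) 𝓘(ℝ, E) M M 1}

theorem card_le (hf : Continuous (fun p : U × M => f p.1 p.2))
    (hfi : Continuous (fun p : U × M => (f p.1).symm p.2))
    (hD : Continuous (fun p : U × TangentBundle 𝓘(ℝ, E) M =>
      tangentMap 𝓘(ℝ, E) 𝓘(ℝ, E) (f p.1) p.2))
    {Q : Set M} (hQ : IsHyperbolic f Q) (hI : IsIsolatedInvariant f (lift f Q)) :
    ∃ δ > 0, ∀ u v : ℤ → U, (∀ t, dist (u t) (v t) < δ) →
      (fiber f Q u).encard ≤ (fiber f Q v).encard := by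
  obtain ⟨F, R, C0, hC0, hF, hb, hcov⟩ := exists_cover (E := E) hQ.2.1
  have hcov' : ∀ x ∈ Q, ∃ a ∈ F, x ∈ KK E a (R a) := fun x hx => by
    obtain ⟨a, ha, h1, h2⟩ := hcov x hx
    exact ⟨a, ha, h1, ball_subset_closedBall h2⟩
  obtain ⟨m, hm, hmar⟩ := margin hQ.2.1 hcov
  obtain ⟨r, hr, hexp⟩ := expansive hf hD hQ hC0 hF hb hcov'
  obtain ⟨δ1, hδ1, htr⟩ := trans_est hF (half_pos hr)
  obtain ⟨δ, hδ, hcont⟩ := cont_all hf hfi hD hQ hI hC0 hF hb hcov'
    (ε := min m (min (δ1 / 2) (r / 2))) (by positivity)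
  have e1 := min_le_left m (min (δ1 / 2) (r / 2))
  have e2 := (min_le_right m (min (δ1 / 2) (r / 2))).trans (min_le_left _ _)
  have e3 := (min_le_right m (min (δ1 / 2) (r / 2))).trans (min_le_right _ _)
  refine ⟨δ, hδ, fun u v huv => ?_⟩
  choose! j hjF hj1 hj2 using hmar
  have hK : ∀ x ∈ Q, ∀ y ∈ (chartAt E (j x)).source,
      ‖chartAt E (j x) y - chartAt E (j x) x‖ ≤ m → y ∈ KK E (j x) (R (j x)) := by
    intro x hx y hy h
    refine ⟨hy, mem_closedBall.2 ?_⟩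
    have := dist_triangle (chartAt E (j x) y) (chartAt E (j x) x) (chartAt E (j x) (j x))
    rw [dist_eq_norm (chartAt E (j x) y) (chartAt E (j x) x)] at this
    linarith [hj2 x hx]
  have hK0 : ∀ x ∈ Q, x ∈ KK E (j x) (R (j x)) := fun x hx =>
    hK x hx x (hj1 x hx) (by rw [sub_self, norm_zero]; exact hm.le)
  have hex := fun x (hx : x ∈ fiber f Q u) => hcont u x hx (fun t => j (phi f t u x))
    (fun t => hjF _ (hx t)) (fun t => hK0 _ (hx t)) v huv
  choose! g hg1 hg2 using hex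
  refine encard_le_encard_of_injOn (f := g) hg1 (fun x hx x' hx' e => ?_)
  refine (hexp u x hx (fun t => j (phi f t u x)) (fun t => hjF _ (hx t))
    (fun t => hK0 _ (hx t)) x' (fun t => ?_)).symm
  obtain ⟨a1, a2⟩ := hg2 x hx t
  obtain ⟨b1, b2⟩ := hg2 x' hx' t
  rw [← e] at b1 b2
  obtain ⟨c1, c2⟩ := htr _ (hjF _ (hx' t)) _ (hjF _ (hx t)) _ (hK _ (hx' t) _ b1 (b2.trans e1))
    (hK _ (hx t) _ a1 (a2.trans e1)) _ (hj1 _ (hx' t)) (by rw [norm_sub_rev]; linarith)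
  refine ⟨c1, (norm_sub_le_norm_sub_add_norm_sub _ (chartAt E (j (phi f t u x))
    (phi f t v (g x))) _).trans ?_⟩
  linarith

theorem card_eq [PreconnectedSpace U] (hf : Continuous (fun p : U × M => f p.1 p.2))
    (hfi : Continuous (fun p : U × M => (f p.1).symm p.2))
    (hD : Continuous (fun p : U × TangentBundle 𝓘(ℝ, E) M =>
      tangentMap 𝓘(ℝ, E) 𝓘(ℝ, E) (f p.1) p.2))
    {Q : Set M} (hQ : IsHyperbolic f Q) (hI : IsIsolatedInvariant f (lift f Q)) (u v : ℤ → U) :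
    (fiber f Q u).encard = (fiber f Q v).encard := by
  obtain ⟨δ, hδ, h⟩ := card_le hf hfi hD hQ hI
  obtain ⟨m, hm⟩ := exists_chain (U := U) hδ
  have key : ∀ (k : ℕ) (u v : ℤ → U), (∀ t, Ch δ k (u t) (v t)) →
      (fiber f Q u).encard ≤ (fiber f Q v).encard := by
    intro k
    induction k with
    | zero =>
      intro u v h0
      have e : u = v := funext h0
      rw [e]
    | succ k ih =>
      intro u v h0
      choose r hr1 hr2 using h0
      exact (h u r hr1).trans (ih r v hr2)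
  exact le_antisymm (key m u v (fun t => hm _ _)) (key m v u (fun t => hm _ _))

theorem graphs [PreconnectedSpace U] (hf : Continuous (fun p : U × M => f p.1 p.2))
    (hfi : Continuous (fun p : U × M => (f p.1).symm p.2))
    (hD : Continuous (fun p : U × TangentBundle 𝓘(ℝ, E) M =>
      tangentMap 𝓘(ℝ, E) 𝓘(ℝ, E) (f p.1) p.2))
    {Q : Set M} (hQ : IsHyperbolic f Q) (hI : IsIsolatedInvariant f (lift f Q)) (u₀ : ℤ → U)
    (hfin : (fiber f Q u₀).Finite) :
    ∃ (n : ℕ) (x : Fin n → (ℤ → U) → M) (σ : Equiv.Perm (Fin n)), 0 < n ∧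
      (∀ i, Continuous (x i)) ∧ (∀ u, Function.Injective (fun i => x i u)) ∧
      (∀ u, fiber f Q u = range (fun i => x i u)) ∧
      ∀ i u, f (u 0) (x i u) = x (σ i) (fun t => u (t + 1)) := by
  have : CompactSpace (lift f Q) := isCompact_iff_compactSpace.1 (lift_compact f hf hfi hQ.2.1)
  have : Nonempty U := ⟨u₀ 0⟩
  set p : lift f Q → ℤ → U := fun q => q.1.1 with hp
  have himg : ∀ u, (fun q : lift f Q => q.1.2) '' (p ⁻¹' {u}) = fiber f Q u := by
    intro u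
    ext x
    constructor
    · rintro ⟨⟨⟨v, y⟩, hq⟩, (rfl : v = u), rfl⟩
      exact hq
    · intro hx
      exact ⟨⟨(u, x), hx⟩, rfl, rfl⟩
  have hinj : ∀ u, InjOn (fun q : lift f Q => q.1.2) (p ⁻¹' {u}) := fun u a ha b hb e =>
    Subtype.ext (Prod.ext (Eq.trans ha (Eq.symm hb)) e)
  have hn : ∀ u, (p ⁻¹' {u}).encard = (fiber f Q u₀).ncard := by
    intro u
    rw [← (hinj u).encard_image, himg, card_eq hf hfi hD hQ hI u u₀, hfin.cast_ncard_eq]
  have ho : IsOpenMap p := by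
    refine IsOpenMap.of_nhds_le (fun q S hS => ?_)
    obtain ⟨S', hS', hsub⟩ := (mem_nhds_subtype _ _ _).1 (mem_map.1 hS)
    obtain ⟨W, hW, V, hV, hWV⟩ := mem_nhds_prod_iff.1 hS'
    obtain ⟨V', hV1, hV2, hV3⟩ := _root_.mem_nhds_iff.1 hV
    filter_upwards [hW, lsc hf hfi hD hQ hI q.1.1 q.1.2 q.2 V' hV2 hV3] with v h1 ⟨y, h2, h3⟩
    exact hsub (a := ⟨(v, y), h2⟩) (hWV ⟨h1, hV1 h3⟩)
  obtain ⟨s, σ, h1, h2, h3, h4⟩ := sections (p := p) (continuous_fst.comp continuous_subtype_val)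
    ho hn (fun k q => ⟨Phi f k q.1, Phi_mem_lift f q.2 k⟩)
    (fun k => Continuous.subtype_mk (Continuous.prodMk
      (continuous_pi (fun s => (continuous_apply _).comp
        (continuous_fst.comp continuous_subtype_val)))
      ((phi_continuous f hf hfi k).comp continuous_subtype_val)) _)
    (fun k => Function.bijective_iff_has_inverse.2
      ⟨fun q => ⟨Phi f (-k) q.1, Phi_mem_lift f q.2 (-k)⟩,
        fun q => Subtype.ext (by simp only [Phi_add, neg_add_cancel, Phi_zero]),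
        fun q => Subtype.ext (by simp only [Phi_add, add_neg_cancel, Phi_zero])⟩)
    (fun k q => rfl)
  have hps : ∀ i u, s i u ∈ p ⁻¹' {u} := fun i u => by rw [h3]; exact ⟨i, rfl⟩
  refine ⟨_, fun i u => (s i u).1.2, σ, ?_, fun i =>
    continuous_snd.comp (continuous_subtype_val.comp (h1 i)),
    fun u i j e => h2 u (hinj u (hps i u) (hps j u) e), fun u => ?_, fun i u => ?_⟩
  · obtain ⟨x, hx⟩ := hQ.1
    obtain ⟨u, hu⟩ := hQ.2.2.1 x hx
    rw [ncard_pos hfin, ← encard_pos, ← card_eq hf hfi hD hQ hI u u₀, encard_pos]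
    exact ⟨x, hu⟩
  · rw [← himg, h3, ← range_comp]
    rfl
  · beta_reduce
    rw [← h4]
    have e : (s i u).1.1 = u := hps i u
    have e2 := congrFun (phi_succ f u 0) (s i u).1.2
    rw [zero_add] at e2
    show _ = phi f 1 (s i u).1.1 (s i u).1.2
    rw [e, e2]
    rfl

end Pool.Agent.Lib.MP_dedb2f_an.Graphs
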